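import Mathlib

/-!
The quantities of the strengthened Aaronson-Ambainis conjecture, written exactly as in the
problem: functions on `{-1,1}^n = (Fin n → ℤˣ)`.
-/

set_option linter.dupNamespace false

namespace Pool.Agent.Helper11.AA

open Finset

/-- `f` has degree at most `d`: every Fourier coefficient `E[f(x) x^S]` with `|S| > d` vanishes. -/
def DegreeAtMost {n : ℕ} (f : (Fin n → ℤˣ) → ℝ) (d : ℕ) : Prop :=
  ∀ S : Finset (Fin n), d < S.card →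
    ∑ x : Fin n → ℤˣ, f x * ∏ i ∈ S, ((x i : ℤ) : ℝ) = 0

/-- `Var(f) = E[f^2] - (E f)^2`. -/
noncomputable def variance {n : ℕ} (f : (Fin n → ℤˣ) → ℝ) : ℝ :=
  (∑ x : Fin n → ℤˣ, f x ^ 2) / (2 : ℝ) ^ n - ((∑ x : Fin n → ℤˣ, f x) / (2 : ℝ) ^ n) ^ 2

/-- `‖f‖_∞ = max_x |f(x)|`. -/
noncomputable def supNorm {n : ℕ} (f : (Fin n → ℤˣ) → ℝ) : ℝ := ⨆ x : Fin n → ℤˣ, |f x|

/-- The discrete derivative `D_j f`. -/
noncomputable def discreteDeriv {n : ℕ} (j : Fin n) (f : (Fin n → ℤˣ) → ℝ) (x : Fin n → ℤˣ) : ℝ :=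
  (f (Function.update x j 1) - f (Function.update x j (-1))) / 2

/-- The `L^2` norm of `D_j f`, i.e. the square root of the influence of coordinate `j`. -/
noncomputable def derivNorm {n : ℕ} (j : Fin n) (f : (Fin n → ℤˣ) → ℝ) : ℝ :=
  Real.sqrt ((∑ x : Fin n → ℤˣ, discreteDeriv j f x ^ 2) / (2 : ℝ) ^ n)

/-- `M(f)`, the largest of the numbers `‖D_1 f‖_2, ..., ‖D_n f‖_2`. -/
noncomputable def maxDerivNorm {n : ℕ} (f : (Fin n → ℤˣ) → ℝ) : ℝ := ⨆ j : Fin n, derivNorm j f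

/-- The Fourier coefficient `E[f(x) x^S]`. -/
noncomputable def fourierCoeff {n : ℕ} (f : (Fin n → ℤˣ) → ℝ) (S : Finset (Fin n)) : ℝ :=
  (∑ x : Fin n → ℤˣ, f x * ∏ i ∈ S, ((x i : ℤ) : ℝ)) / (2 : ℝ) ^ n

/-- The linear form with weights `a` on the block `{i : c i = b}`. -/
noncomputable def blockForm {n k : ℕ} (c : Fin n → Fin k) (a : Fin n → ℝ) (x : Fin n → ℤˣ)
    (b : Fin k) : ℝ := ∑ i ∈ univ.filter (fun i => c i = b), a i * ((x i : ℤ) : ℝ)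

end Pool.Agent.Helper11.AA
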