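import Mathlib

/-!
Basic Fourier analysis on the cube `{-1,1}^n`, modelled as `Fin n → ℤˣ`.
-/

set_option linter.dupNamespace false

namespace Pool.Agent.Helper11.Cube

open Finset

/-- The Boolean cube `{-1,1}^n`. -/
abbrev Cube (n : ℕ) := Fin n → ℤˣ

/-- The character `x^S`. -/
def chi {n : ℕ} (S : Finset (Fin n)) (x : Cube n) : ℝ := ∏ i ∈ S, ((x i : ℤ) : ℝ)

/-- Expectation for the uniform measure. -/
noncomputable def ex {n : ℕ} (f : Cube n → ℝ) : ℝ := (∑ x, f x) / (2 : ℝ) ^ n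

/-- Fourier coefficient. -/
noncomputable def coef {n : ℕ} (f : Cube n → ℝ) (S : Finset (Fin n)) : ℝ :=
  ex (fun x => f x * chi S x)

lemma unit_sq (u : ℤˣ) : ((u : ℤ) : ℝ) * ((u : ℤ) : ℝ) = 1 := by
  rcases Int.units_eq_one_or u with h | h <;> simp [h]

lemma sum_units (g : ℤˣ → ℝ) : ∑ u : ℤˣ, g u = g 1 + g (-1) := by
  have : (Finset.univ : Finset ℤˣ) = {1, -1} := by decide
  rw [this, Finset.sum_insert (by decide), Finset.sum_singleton]

lemma chi_mul_self {n : ℕ} (S : Finset (Fin n)) (x : Cube n) : chi S x * chi S x = 1 := by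
  unfold chi
  rw [← Finset.prod_mul_distrib]
  exact Finset.prod_eq_one (fun i _ => unit_sq _)

lemma abs_chi {n : ℕ} (S : Finset (Fin n)) (x : Cube n) : |chi S x| = 1 := by
  have h := chi_mul_self S x
  have h2 : |chi S x| * |chi S x| = 1 := by rw [← abs_mul, h, abs_one]
  nlinarith [abs_nonneg (chi S x)]

lemma sum_prod_cube {n : ℕ} (g : Fin n → ℤˣ → ℝ) :
    ∑ x : Cube n, ∏ i, g i (x i) = ∏ i, (g i 1 + g i (-1)) := by
  have h := Finset.prod_univ_sum (fun _ : Fin n => (Finset.univ : Finset ℤˣ)) g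
  rw [Fintype.piFinset_univ] at h
  rw [← h]
  exact Finset.prod_congr rfl (fun i _ => sum_units _)

lemma chi_eq_univ {n : ℕ} (S : Finset (Fin n)) (x : Cube n) :
    chi S x = ∏ i, (if i ∈ S then ((x i : ℤ) : ℝ) else 1) := by
  unfold chi
  rw [Finset.prod_ite_mem, Finset.univ_inter]

lemma sum_chi {n : ℕ} (S : Finset (Fin n)) :
    ∑ x : Cube n, chi S x = if S = ∅ then (2 : ℝ) ^ n else 0 := by
  simp_rw [chi_eq_univ]
  rw [sum_prod_cube (fun i u => if i ∈ S then ((u : ℤ) : ℝ) else 1)]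
  split_ifs with h
  · subst h
    simp
    norm_num
  · obtain ⟨i, hi⟩ := Finset.nonempty_iff_ne_empty.mpr h
    apply Finset.prod_eq_zero (Finset.mem_univ i)
    simp [hi]

lemma chi_mul_chi {n : ℕ} (S T : Finset (Fin n)) (x : Cube n) :
    chi S x * chi T x = chi (symmDiff S T) x := by
  simp_rw [chi_eq_univ]
  rw [← Finset.prod_mul_distrib]
  apply Finset.prod_congr rfl
  intro i _
  by_cases h1 : i ∈ S <;> by_cases h2 : i ∈ T <;> simp [h1, h2, Finset.mem_symmDiff, unit_sq]

lemma ex_chi_mul_chi {n : ℕ} (S T : Finset (Fin n)) :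
    ex (fun x => chi S x * chi T x) = if S = T then 1 else 0 := by
  unfold ex
  simp_rw [chi_mul_chi]
  rw [sum_chi]
  by_cases h : S = T
  · subst h; simp
  · have : symmDiff S T ≠ ∅ := by
      intro h'
      exact h (symmDiff_eq_bot.mp h')
    simp [h, this]

lemma sum_chi_chi {n : ℕ} (x y : Cube n) :
    ∑ S : Finset (Fin n), chi S x * chi S y = if x = y then (2 : ℝ) ^ n else 0 := by
  have h : ∀ S : Finset (Fin n), chi S x * chi S y = ∏ i ∈ S, (((x i : ℤ) : ℝ) * ((y i : ℤ) : ℝ)) := by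
    intro S; unfold chi; rw [Finset.prod_mul_distrib]
  simp_rw [h]
  have h2 := Finset.prod_one_add (f := fun i => (((x i : ℤ) : ℝ) * ((y i : ℤ) : ℝ))) (s := (Finset.univ : Finset (Fin n)))
  rw [Finset.powerset_univ] at h2
  rw [← h2]
  split_ifs with hxy
  · subst hxy
    simp only [unit_sq]
    norm_num
  · obtain ⟨i, hi⟩ := Function.ne_iff.mp hxy
    apply Finset.prod_eq_zero (Finset.mem_univ i)
    rcases Int.units_eq_one_or (x i) with h | h <;> rcases Int.units_eq_one_or (y i) with h' | h' <;>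
      simp [h, h'] at hi ⊢

lemma two_pow_pos (n : ℕ) : (0 : ℝ) < 2 ^ n := by positivity

/-- Fourier inversion. -/
lemma inversion {n : ℕ} (f : Cube n → ℝ) (x : Cube n) :
    f x = ∑ S : Finset (Fin n), coef f S * chi S x := by
  unfold coef ex
  have : ∀ S : Finset (Fin n), (∑ y, f y * chi S y) / 2 ^ n * chi S x
      = ∑ y, (f y / 2 ^ n) * (chi S y * chi S x) := by
    intro S
    rw [Finset.sum_div, Finset.sum_mul]
    apply Finset.sum_congr rfl; intro y _; ring
  simp_rw [this]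
  rw [Finset.sum_comm]
  simp_rw [← Finset.mul_sum, sum_chi_chi]
  simp

lemma ex_add {n : ℕ} (f g : Cube n → ℝ) : ex (fun x => f x + g x) = ex f + ex g := by
  unfold ex; rw [Finset.sum_add_distrib, add_div]

lemma ex_sub {n : ℕ} (f g : Cube n → ℝ) : ex (fun x => f x - g x) = ex f - ex g := by
  unfold ex; rw [Finset.sum_sub_distrib, sub_div]

lemma ex_const_mul {n : ℕ} (c : ℝ) (f : Cube n → ℝ) : ex (fun x => c * f x) = c * ex f := by
  unfold ex; rw [← Finset.mul_sum, mul_div_assoc]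

lemma ex_sum {n : ℕ} {ι : Type*} (s : Finset ι) (f : ι → Cube n → ℝ) :
    ex (fun x => ∑ i ∈ s, f i x) = ∑ i ∈ s, ex (f i) := by
  unfold ex
  rw [Finset.sum_comm, Finset.sum_div]

lemma ex_const {n : ℕ} (c : ℝ) : ex (fun _ : Cube n => c) = c := by
  unfold ex
  rw [Finset.sum_const, Finset.card_univ]
  have : Fintype.card (Cube n) = 2 ^ n := by
    rw [Fintype.card_fun, Fintype.card_fin]
    congr 1
  rw [this]
  simp

lemma ex_mono {n : ℕ} {f g : Cube n → ℝ} (h : ∀ x, f x ≤ g x) : ex f ≤ ex g := by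
  unfold ex
  exact div_le_div_of_nonneg_right (Finset.sum_le_sum (fun x _ => h x)) (two_pow_pos n).le

lemma ex_nonneg {n : ℕ} {f : Cube n → ℝ} (h : ∀ x, 0 ≤ f x) : 0 ≤ ex f := by
  unfold ex
  exact div_nonneg (Finset.sum_nonneg (fun x _ => h x)) (two_pow_pos n).le

lemma abs_ex_le {n : ℕ} (f : Cube n → ℝ) : |ex f| ≤ ex (fun x => |f x|) := by
  unfold ex
  rw [abs_div, abs_of_pos (two_pow_pos n)]
  exact div_le_div_of_nonneg_right (Finset.abs_sum_le_sum_abs _ _) (two_pow_pos n).le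

/-- Plancherel. -/
lemma plancherel {n : ℕ} (f g : Cube n → ℝ) :
    ex (fun x => f x * g x) = ∑ S : Finset (Fin n), coef f S * coef g S := by
  have h : (fun x => f x * g x) = fun x => ∑ S : Finset (Fin n), coef g S * (f x * chi S x) := by
    funext x
    rw [inversion g x, Finset.mul_sum]
    apply Finset.sum_congr rfl
    intro S _
    ring
  rw [h, ex_sum]
  apply Finset.sum_congr rfl
  intro S _
  rw [ex_const_mul]
  unfold coef
  ring

lemma parseval {n : ℕ} (f : Cube n → ℝ) :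
    ex (fun x => f x ^ 2) = ∑ S : Finset (Fin n), coef f S ^ 2 := by
  have := plancherel f f
  simp_rw [← sq] at this
  exact this

lemma coef_empty {n : ℕ} (f : Cube n → ℝ) : coef f ∅ = ex f := by
  unfold coef chi
  simp

/-- coefficients of a Fourier polynomial. -/
lemma coef_poly {n : ℕ} (c : Finset (Fin n) → ℝ) (S : Finset (Fin n)) :
    coef (fun x => ∑ T : Finset (Fin n), c T * chi T x) S = c S := by
  unfold coef
  have : (fun x : Cube n => (∑ T : Finset (Fin n), c T * chi T x) * chi S x)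
      = fun x => ∑ T : Finset (Fin n), c T * (chi T x * chi S x) := by
    funext x
    rw [Finset.sum_mul]
    apply Finset.sum_congr rfl; intro T _; ring
  rw [this, ex_sum]
  simp_rw [ex_const_mul, ex_chi_mul_chi]
  simp

end Pool.Agent.Helper11.Cube
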