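import Mathlib
import Pool.Agent.Helper11.Cube

/-!
Markov's inequality at the end point and the block-flipping inequality for bounded
polynomials of low degree on the cube.
-/

namespace Pool.Agent.Helper11.Cube

open Finset Polynomial

lemma deriv_T_one (n : ℕ) : (derivative (Polynomial.Chebyshev.T ℝ n)).eval 1 = (n : ℝ) ^ 2 := by
  have h := Polynomial.Chebyshev.iterate_derivative_T_eval_one_recurrence (R := ℝ) (n : ℤ) 0
  simp only [Function.iterate_succ, Function.iterate_zero, Function.comp_apply, id] at h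
  rw [Polynomial.Chebyshev.T_eval_one] at h
  push_cast at h
  linarith

lemma markov_le {d : ℕ} {P : ℝ[X]} (hdeg : P.degree ≤ d)
    (hb : ∀ x ∈ Set.Icc (-1 : ℝ) 1, |P.eval x| ≤ 1) :
    (derivative P).eval 1 ≤ (d : ℝ) ^ 2 := by
  have h := Polynomial.Chebyshev.eval_iterate_derivative_le_of_forall_abs_le_one
    (n := d) (P := P) (k := 1) (x := 1) le_rfl hdeg hb
  simp only [Function.iterate_succ, Function.iterate_zero, Function.comp_apply, id] at h
  rwa [deriv_T_one] at h

/-- Markov's inequality at the end point `1`. -/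
lemma markov_endpoint {d : ℕ} {P : ℝ[X]} {B : ℝ} (hB : 0 ≤ B) (hdeg : P.degree ≤ d)
    (hb : ∀ x ∈ Set.Icc (-1 : ℝ) 1, |P.eval x| ≤ B) :
    |(derivative P).eval 1| ≤ (d : ℝ) ^ 2 * B := by
  have key : ∀ Q : ℝ[X], Q.degree ≤ d → (∀ x ∈ Set.Icc (-1 : ℝ) 1, |Q.eval x| ≤ B) →
      ∀ ε : ℝ, 0 < ε → (derivative Q).eval 1 ≤ (d : ℝ) ^ 2 * (B + ε) := by
    intro Q hQ hQb ε hε
    have hBε : 0 < B + ε := by linarith
    have h1 : (C (B + ε)⁻¹ * Q).degree ≤ d := by
      rw [degree_C_mul (inv_ne_zero hBε.ne')]; exact hQ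
    have h2 : ∀ x ∈ Set.Icc (-1 : ℝ) 1, |(C (B + ε)⁻¹ * Q).eval x| ≤ 1 := by
      intro x hx
      rw [eval_mul, eval_C, abs_mul, abs_of_pos (inv_pos.mpr hBε), inv_mul_le_iff₀ hBε, mul_one]
      linarith [hQb x hx]
    have h3 := markov_le h1 h2
    rw [derivative_C_mul, eval_mul, eval_C, inv_mul_le_iff₀ hBε] at h3
    linarith
  have key2 : ∀ Q : ℝ[X], Q.degree ≤ d → (∀ x ∈ Set.Icc (-1 : ℝ) 1, |Q.eval x| ≤ B) →
      (derivative Q).eval 1 ≤ (d : ℝ) ^ 2 * B := by
    intro Q hQ hQb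
    refine le_of_forall_pos_le_add ?_
    intro ε hε
    have hd : (0 : ℝ) < (d : ℝ) ^ 2 + 1 := by positivity
    have h := key Q hQ hQb (ε / ((d : ℝ) ^ 2 + 1)) (by positivity)
    have h' : (d : ℝ) ^ 2 * (ε / ((d : ℝ) ^ 2 + 1)) ≤ ε := by
      rw [mul_div_assoc', div_le_iff₀ hd]
      nlinarith
    linarith
  rw [abs_le]
  constructor
  · have h := key2 (-P) (by rwa [degree_neg]) (by
      intro x hx; rw [eval_neg, abs_neg]; exact hb x hx)
    rw [derivative_neg, eval_neg] at h
    linarith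
  · exact key2 P hdeg hb

/-- Flip the coordinates in `A`. -/
def flipOn {n : ℕ} (A : Finset (Fin n)) (x : Cube n) : Cube n := fun i => if i ∈ A then - x i else x i

lemma chi_flip {n : ℕ} (S A : Finset (Fin n)) (x : Cube n) :
    chi S (flipOn A x) = (-1 : ℝ) ^ (S ∩ A).card * chi S x := by
  unfold chi flipOn
  have h : ∀ i ∈ S, (((if i ∈ A then - x i else x i : ℤˣ) : ℤ) : ℝ)
      = (if i ∈ A then (-1 : ℝ) else 1) * ((x i : ℤ) : ℝ) := by
    intro i _
    split_ifs <;> simp
  rw [Finset.prod_congr rfl h, Finset.prod_mul_distrib, Finset.prod_ite, Finset.prod_const,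
    Finset.prod_const_one, mul_one, Finset.filter_mem_eq_inter]

lemma flip_empty {n : ℕ} (x : Cube n) : flipOn ∅ x = x := by
  funext i; simp [flipOn]

/-- degree of `f` is at most `d`. -/
def DegLE {n : ℕ} (f : Cube n → ℝ) (d : ℕ) : Prop :=
  ∀ S : Finset (Fin n), d < S.card → coef f S = 0

section Blocks

set_option linter.unusedSectionVars false

variable {n : ℕ} {ι : Type*} [DecidableEq ι]

lemma card_inter_biUnion (s : Finset ι) (B : ι → Finset (Fin n))
    (hdisj : Set.PairwiseDisjoint (s : Set ι) B) (S : Finset (Fin n)) :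
    (S ∩ s.biUnion B).card = ∑ i ∈ s, (S ∩ B i).card := by
  rw [Finset.inter_biUnion, Finset.card_biUnion]
  intro i hi j hj hij
  exact Finset.disjoint_of_subset_left Finset.inter_subset_right
    (Finset.disjoint_of_subset_right Finset.inter_subset_right (hdisj hi hj hij))

/-- number of blocks meeting `S` in an odd number of points -/
def oddBlocks (s : Finset ι) (B : ι → Finset (Fin n)) (S : Finset (Fin n)) : ℕ :=
  (s.filter (fun i => Odd (S ∩ B i).card)).card

lemma oddBlocks_le (s : Finset ι) (B : ι → Finset (Fin n))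
    (hdisj : Set.PairwiseDisjoint (s : Set ι) B) (S : Finset (Fin n)) :
    oddBlocks s B S ≤ S.card := by
  unfold oddBlocks
  calc (s.filter (fun i => Odd (S ∩ B i).card)).card
      = ∑ i ∈ s.filter (fun i => Odd (S ∩ B i).card), 1 := by simp
    _ ≤ ∑ i ∈ s.filter (fun i => Odd (S ∩ B i).card), (S ∩ B i).card := by
        apply Finset.sum_le_sum
        intro i hi
        exact (Finset.mem_filter.mp hi).2.pos
    _ ≤ ∑ i ∈ s, (S ∩ B i).card :=
        Finset.sum_le_sum_of_subset (Finset.filter_subset _ _)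
    _ = (S ∩ s.biUnion B).card := (card_inter_biUnion s B hdisj S).symm
    _ ≤ S.card := Finset.card_le_card Finset.inter_subset_left

/-- The univariate polynomial obtained by rerandomizing the blocks. -/
noncomputable def blockPoly (s : Finset ι) (B : ι → Finset (Fin n)) (f : Cube n → ℝ) (x : Cube n) :
    ℝ[X] := ∑ S : Finset (Fin n), C (coef f S * chi S x) * X ^ (oddBlocks s B S)

lemma blockPoly_degree {d : ℕ} (s : Finset ι) (B : ι → Finset (Fin n))
    (hdisj : Set.PairwiseDisjoint (s : Set ι) B) {f : Cube n → ℝ} (hf : DegLE f d) (x : Cube n) :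
    (blockPoly s B f x).degree ≤ d := by
  unfold blockPoly
  refine le_trans (Polynomial.degree_sum_le _ _) ?_
  apply Finset.sup_le
  intro S _
  by_cases hS : d < S.card
  · rw [hf S hS]; simp
  · push Not at hS
    refine le_trans (Polynomial.degree_C_mul_X_pow_le _ _) ?_
    exact_mod_cast le_trans (oddBlocks_le s B hdisj S) hS

lemma blockPoly_eval (s : Finset ι) (B : ι → Finset (Fin n))
    (hdisj : Set.PairwiseDisjoint (s : Set ι) B) (f : Cube n → ℝ) (x : Cube n) (u : ℝ) :
    (blockPoly s B f x).eval u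
      = ∑ T ∈ s.powerset, ((∏ _i ∈ T, ((1 - u) / 2)) * ∏ _i ∈ s \ T, ((1 + u) / 2))
          * f (flipOn (T.biUnion B) x) := by
  have h1 : ∀ S : Finset (Fin n), u ^ (oddBlocks s B S)
      = ∑ T ∈ s.powerset, ((∏ _i ∈ T, ((1 - u) / 2)) * ∏ _i ∈ s \ T, ((1 + u) / 2))
          * (-1 : ℝ) ^ (S ∩ T.biUnion B).card := by
    intro S
    have h2 : u ^ (oddBlocks s B S)
        = ∏ i ∈ s, (((1 - u) / 2) * (-1 : ℝ) ^ (S ∩ B i).card + (1 + u) / 2) := by
      unfold oddBlocks
      rw [← Finset.prod_const, Finset.prod_filter]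
      apply Finset.prod_congr rfl
      intro i _
      split_ifs with h
      · rw [h.neg_one_pow]; ring
      · rw [(Nat.not_odd_iff_even.mp h).neg_one_pow]; ring
    rw [h2, Finset.prod_add]
    apply Finset.sum_congr rfl
    intro T hT
    rw [Finset.prod_mul_distrib, card_inter_biUnion T B
      (hdisj.subset (by exact_mod_cast Finset.mem_powerset.mp hT)) S, ← Finset.prod_pow_eq_pow_sum]
    ring
  unfold blockPoly
  rw [eval_finsetSum]
  simp only [eval_mul, eval_C, eval_pow, eval_X]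
  simp_rw [h1, Finset.mul_sum]
  rw [Finset.sum_comm]
  apply Finset.sum_congr rfl
  intro T _
  rw [inversion f (flipOn (T.biUnion B) x), Finset.mul_sum]
  apply Finset.sum_congr rfl
  intro S _
  rw [chi_flip]
  ring

lemma blockPoly_bound {K : ℝ} (s : Finset ι) (B : ι → Finset (Fin n))
    (hdisj : Set.PairwiseDisjoint (s : Set ι) B) (f : Cube n → ℝ) (hK : ∀ y, |f y| ≤ K)
    (x : Cube n) (u : ℝ) (hu : u ∈ Set.Icc (-1 : ℝ) 1) :
    |(blockPoly s B f x).eval u| ≤ K := by
  rw [blockPoly_eval s B hdisj]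
  obtain ⟨hu1, hu2⟩ := hu
  have hp : (0 : ℝ) ≤ (1 - u) / 2 := by linarith
  have hq : (0 : ℝ) ≤ (1 + u) / 2 := by linarith
  calc |∑ T ∈ s.powerset, ((∏ _i ∈ T, ((1 - u) / 2)) * ∏ _i ∈ s \ T, ((1 + u) / 2))
          * f (flipOn (T.biUnion B) x)|
      ≤ ∑ T ∈ s.powerset, |((∏ _i ∈ T, ((1 - u) / 2)) * ∏ _i ∈ s \ T, ((1 + u) / 2))
          * f (flipOn (T.biUnion B) x)| := Finset.abs_sum_le_sum_abs _ _
    _ ≤ ∑ T ∈ s.powerset, ((∏ _i ∈ T, ((1 - u) / 2)) * ∏ _i ∈ s \ T, ((1 + u) / 2)) * K := by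
        apply Finset.sum_le_sum
        intro T _
        have hnn : 0 ≤ (∏ _i ∈ T, ((1 - u) / 2)) * ∏ _i ∈ s \ T, ((1 + u) / 2) := by positivity
        rw [abs_mul, abs_of_nonneg hnn]
        exact mul_le_mul_of_nonneg_left (hK _) hnn
    _ = K := by
        rw [← Finset.sum_mul, ← Finset.prod_add]
        have : ∀ i ∈ s, (1 - u) / 2 + (1 + u) / 2 = 1 := by intro i _; ring
        rw [Finset.prod_congr rfl this, Finset.prod_const_one, one_mul]

lemma blockPoly_deriv (s : Finset ι) (B : ι → Finset (Fin n)) (f : Cube n → ℝ) (x : Cube n) :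
    ∑ i ∈ s, (f x - f (flipOn (B i) x)) = 2 * (derivative (blockPoly s B f x)).eval 1 := by
  have h1 : ∀ S : Finset (Fin n), ∑ i ∈ s, (1 - (-1 : ℝ) ^ (S ∩ B i).card)
      = 2 * (oddBlocks s B S : ℝ) := by
    intro S
    unfold oddBlocks
    rw [Finset.card_filter, Nat.cast_sum, Finset.mul_sum]
    apply Finset.sum_congr rfl
    intro i _
    split_ifs with h
    · rw [h.neg_one_pow]; norm_num
    · rw [(Nat.not_odd_iff_even.mp h).neg_one_pow]; norm_num
  have h2 : ∀ i ∈ s, f x - f (flipOn (B i) x)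
      = ∑ S : Finset (Fin n), coef f S * chi S x * (1 - (-1 : ℝ) ^ (S ∩ B i).card) := by
    intro i _
    conv_lhs => rw [inversion f x, inversion f (flipOn (B i) x)]
    rw [← Finset.sum_sub_distrib]
    apply Finset.sum_congr rfl
    intro S _
    rw [chi_flip]; ring
  rw [Finset.sum_congr rfl h2, Finset.sum_comm]
  simp_rw [← Finset.mul_sum, h1]
  unfold blockPoly
  rw [derivative_sum, eval_finsetSum, Finset.mul_sum]
  apply Finset.sum_congr rfl
  intro S _
  rw [derivative_C_mul_X_pow]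
  simp only [eval_mul, eval_C, eval_pow, eval_X, one_pow]
  ring

/-- Block flipping inequality: for disjoint blocks, the total signed change is at most
`2 d^2 ‖f‖`. -/
theorem block_flip_bound {d : ℕ} {K : ℝ} (s : Finset ι) (B : ι → Finset (Fin n))
    (hdisj : Set.PairwiseDisjoint (s : Set ι) B) {f : Cube n → ℝ} (hf : DegLE f d)
    (hK : ∀ y, |f y| ≤ K) (x : Cube n) :
    |∑ i ∈ s, (f x - f (flipOn (B i) x))| ≤ 2 * (d : ℝ) ^ 2 * K := by
  have hK0 : 0 ≤ K := le_trans (abs_nonneg _) (hK x)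
  rw [blockPoly_deriv, abs_mul, abs_of_pos (by norm_num : (0 : ℝ) < 2)]
  have := markov_endpoint hK0 (blockPoly_degree s B hdisj hf x)
    (fun u hu => blockPoly_bound s B hdisj f hK x u hu)
  nlinarith

end Blocks

end Pool.Agent.Helper11.Cube
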