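import Mathlib
import Pool.Agent.Helper11.Cube
import Pool.Agent.Helper11.Markov
import Pool.Agent.Helper11.AAQuantities

/-!
Basic facts about the quantities of the strengthened Aaronson-Ambainis conjecture.
-/

set_option linter.dupNamespace false

namespace Pool.Agent.Helper11.AA

open Finset

open Pool.Agent.Helper11.Cube

lemma degreeAtMost_iff {n : ℕ} (f : (Fin n → ℤˣ) → ℝ) (d : ℕ) :
    DegreeAtMost f d ↔ DegLE f d := by
  unfold DegreeAtMost DegLE coef ex chi
  constructor
  · intro h S hS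
    rw [h S hS, zero_div]
  · intro h S hS
    have := h S hS
    rw [div_eq_zero_iff] at this
    rcases this with h1 | h1
    · exact h1
    · exact absurd h1 (two_pow_pos n).ne'

lemma variance_eq {n : ℕ} (f : Cube n → ℝ) : variance f = ex (fun x => f x ^ 2) - ex f ^ 2 := rfl

lemma variance_eq_sum {n : ℕ} (f : Cube n → ℝ) :
    variance f = ∑ S ∈ (Finset.univ : Finset (Finset (Fin n))).erase ∅, coef f S ^ 2 := by
  rw [variance_eq, parseval, ← Finset.add_sum_erase _ _ (Finset.mem_univ ∅), coef_empty]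
  ring

lemma le_supNorm {n : ℕ} (f : Cube n → ℝ) (x : Cube n) : |f x| ≤ supNorm f :=
  le_ciSup (Finite.bddAbove_range (fun x => |f x|)) x

lemma supNorm_nonneg {n : ℕ} (f : Cube n → ℝ) : 0 ≤ supNorm f :=
  le_trans (abs_nonneg _) (le_supNorm f (fun _ => 1))

lemma derivNorm_le {n : ℕ} (f : Cube n → ℝ) (j : Fin n) : derivNorm j f ≤ maxDerivNorm f :=
  le_ciSup (Finite.bddAbove_range (fun j => derivNorm j f)) j

lemma derivNorm_nonneg {n : ℕ} (f : Cube n → ℝ) (j : Fin n) : 0 ≤ derivNorm j f :=
  Real.sqrt_nonneg _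

lemma maxDerivNorm_nonneg {n : ℕ} (f : Cube n → ℝ) : 0 ≤ maxDerivNorm f :=
  Real.iSup_nonneg (fun j => derivNorm_nonneg f j)

lemma derivNorm_sq {n : ℕ} (f : Cube n → ℝ) (j : Fin n) :
    derivNorm j f ^ 2 = ex (fun x => discreteDeriv j f x ^ 2) := by
  unfold derivNorm
  rw [Real.sq_sqrt]
  · rfl
  · exact div_nonneg (Finset.sum_nonneg (fun x _ => sq_nonneg _)) (two_pow_pos n).le

/-- `x_j D_j f(x) = (f(x) - f(x^{(j)}))/2`. -/
lemma sub_flip {n : ℕ} (f : Cube n → ℝ) (j : Fin n) (x : Cube n) :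
    f x - f (flipOn {j} x) = 2 * ((x j : ℤ) : ℝ) * discreteDeriv j f x := by
  unfold discreteDeriv
  rcases Int.units_eq_one_or (x j) with h | h
  · have h1 : Function.update x j 1 = x := by rw [← h]; exact Function.update_eq_self j x
    have h2 : Function.update x j (-1) = flipOn {j} x := by
      funext i
      by_cases hij : i = j
      · subst hij; simp [flipOn, h]
      · simp [flipOn, hij]
    rw [h1, h2, h]; push_cast; ring
  · have h1 : Function.update x j (-1) = x := by rw [← h]; exact Function.update_eq_self j x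
    have h2 : Function.update x j 1 = flipOn {j} x := by
      funext i
      by_cases hij : i = j
      · subst hij; simp [flipOn, h]
      · simp [flipOn, hij]
    rw [h1, h2, h]; push_cast; ring

lemma abs_unit (u : ℤˣ) : |((u : ℤ) : ℝ)| = 1 := by
  rcases Int.units_eq_one_or u with h | h <;> simp [h]

lemma abs_sub_flip {n : ℕ} (f : Cube n → ℝ) (j : Fin n) (x : Cube n) :
    |f x - f (flipOn {j} x)| = 2 * |discreteDeriv j f x| := by
  rw [sub_flip, abs_mul, abs_mul, abs_unit]; norm_num

/-- The derivative does not depend on the coordinate `j`. -/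
lemma discreteDeriv_flip {n : ℕ} (f : Cube n → ℝ) (j : Fin n) (x : Cube n) :
    discreteDeriv j f (flipOn {j} x) = discreteDeriv j f x := by
  unfold discreteDeriv
  have h : ∀ u : ℤˣ, Function.update (flipOn {j} x) j u = Function.update x j u := by
    intro u; funext i
    by_cases hij : i = j
    · subst hij; simp
    · simp [flipOn, hij]
  rw [h, h]

/-- Signed one-sided bound: for any set `J` of coordinates,
`|∑_{j ∈ J} x_j D_j f(x)| ≤ d^2 ‖f‖_∞`. -/
lemma signed_sum_deriv_le {n d : ℕ} {f : Cube n → ℝ} (hf : DegLE f d) {K : ℝ}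
    (hK : ∀ y, |f y| ≤ K) (J : Finset (Fin n)) (x : Cube n) :
    |∑ j ∈ J, ((x j : ℤ) : ℝ) * discreteDeriv j f x| ≤ (d : ℝ) ^ 2 * K := by
  have hdisj : Set.PairwiseDisjoint (J : Set (Fin n)) (fun j : Fin n => ({j} : Finset (Fin n))) := by
    intro i _ j _ hij
    simp [Function.onFun, hij]
  have h := block_flip_bound J (fun j => ({j} : Finset (Fin n))) hdisj hf hK x
  have h2 : ∑ j ∈ J, (f x - f (flipOn {j} x))
      = 2 * ∑ j ∈ J, ((x j : ℤ) : ℝ) * discreteDeriv j f x := by
    rw [Finset.mul_sum]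
    apply Finset.sum_congr rfl
    intro j _
    rw [sub_flip]; ring
  rw [h2, abs_mul, abs_of_pos (by norm_num : (0 : ℝ) < 2)] at h
  linarith

/-- Pointwise `ℓ^1` bound for the gradient: `∑_j |D_j f(x)| ≤ 2 d^2 ‖f‖_∞`. -/
lemma sum_abs_deriv_le {n d : ℕ} {f : Cube n → ℝ} (hf : DegLE f d) {K : ℝ}
    (hK : ∀ y, |f y| ≤ K) (x : Cube n) :
    ∑ j, |discreteDeriv j f x| ≤ 2 * (d : ℝ) ^ 2 * K := by
  set g : Fin n → ℝ := fun j => ((x j : ℤ) : ℝ) * discreteDeriv j f x with hg
  have habs : ∀ j, |discreteDeriv j f x| = |g j| := by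
    intro j; rw [hg]; simp only; rw [abs_mul, abs_unit, one_mul]
  simp_rw [habs]
  have hsplit : ∑ j, |g j| = ∑ j ∈ univ.filter (fun j => 0 ≤ g j), g j
      - ∑ j ∈ univ.filter (fun j => ¬ 0 ≤ g j), g j := by
    rw [← Finset.sum_filter_add_sum_filter_not univ (fun j => 0 ≤ g j) (fun j => |g j|)]
    rw [Finset.sum_congr rfl (fun j hj => abs_of_nonneg (Finset.mem_filter.mp hj).2)]
    rw [Finset.sum_congr rfl (g := fun j => - g j)
      (fun j hj => abs_of_neg (not_le.mp (Finset.mem_filter.mp hj).2)), Finset.sum_neg_distrib]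
    ring
  rw [hsplit]
  have h1 := (abs_le.mp (signed_sum_deriv_le hf hK (univ.filter (fun j => 0 ≤ g j)) x)).2
  have h2 := (abs_le.mp (signed_sum_deriv_le hf hK (univ.filter (fun j => ¬ 0 ≤ g j)) x)).1
  simp only [hg] at h1 h2 ⊢
  linarith

/-- `E[(D_j f)^2] = ∑_{S ∋ j} \hat f(S)^2`. -/
lemma ex_deriv_sq {n : ℕ} (f : Cube n → ℝ) (j : Fin n) :
    ex (fun x => discreteDeriv j f x ^ 2)
      = ∑ S ∈ univ.filter (fun S : Finset (Fin n) => j ∈ S), coef f S ^ 2 := by
  have h1 : ∀ x, discreteDeriv j f x ^ 2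
      = (∑ S : Finset (Fin n), (if j ∈ S then coef f S else 0) * chi S x) ^ 2 := by
    intro x
    have h2 : ∑ S : Finset (Fin n), (if j ∈ S then coef f S else 0) * chi S x
        = ((x j : ℤ) : ℝ) * discreteDeriv j f x := by
      have h3 := sub_flip f j x
      conv_lhs at h3 => rw [inversion f x, inversion f (flipOn {j} x)]
      rw [← Finset.sum_sub_distrib] at h3
      have h4 : ∀ S ∈ (univ : Finset (Finset (Fin n))),
          coef f S * chi S x - coef f S * chi S (flipOn {j} x)
          = 2 * ((if j ∈ S then coef f S else 0) * chi S x) := by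
        intro S _
        rw [chi_flip]
        split_ifs with hj
        · rw [Finset.inter_singleton_of_mem hj]; simp; ring
        · rw [Finset.inter_singleton_of_notMem hj]; simp
      rw [Finset.sum_congr rfl h4, ← Finset.mul_sum] at h3
      linarith
    rw [h2, mul_pow, ← sq_abs ((x j : ℤ) : ℝ), abs_unit]; ring
  simp_rw [h1]
  rw [parseval]
  simp_rw [coef_poly]
  rw [Finset.sum_filter]
  apply Finset.sum_congr rfl
  intro S _
  split_ifs <;> simp

/-- Poincaré inequality. -/
lemma poincare {n : ℕ} (f : Cube n → ℝ) :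
    variance f ≤ ∑ j, ex (fun x => discreteDeriv j f x ^ 2) := by
  rw [variance_eq_sum]
  simp_rw [ex_deriv_sq, Finset.sum_filter]
  rw [Finset.sum_comm]
  calc ∑ S ∈ univ.erase ∅, coef f S ^ 2
      ≤ ∑ S ∈ univ.erase ∅, ∑ j, (if j ∈ S then coef f S ^ 2 else 0) := by
        apply Finset.sum_le_sum
        intro S hS
        obtain ⟨j, hj⟩ := Finset.nonempty_iff_ne_empty.mpr (Finset.ne_of_mem_erase hS)
        refine le_trans ?_ (Finset.single_le_sum (f := fun j => if j ∈ S then coef f S ^ 2 else 0)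
          (fun i _ => ?_) (Finset.mem_univ j))
        · simp [hj]
        · split_ifs <;> positivity
    _ ≤ ∑ S, ∑ j, (if j ∈ S then coef f S ^ 2 else 0) := by
        apply Finset.sum_le_sum_of_subset_of_nonneg (Finset.erase_subset _ _)
        intro S _ _
        apply Finset.sum_nonneg
        intro j _
        split_ifs <;> positivity

end Pool.Agent.Helper11.AA
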