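import Mathlib
import Pool.Agent.Helper11.Cube
import Pool.Agent.Helper11.Markov

/-!
Degree calculus for functions on the cube.
-/

set_option linter.dupNamespace false

namespace Pool.Agent.Helper11.Cube

open Finset Polynomial

lemma coef_chi {n : ℕ} (T S : Finset (Fin n)) : coef (chi T) S = if T = S then 1 else 0 := by
  unfold coef
  rw [ex_chi_mul_chi]

lemma coef_sum {n : ℕ} {ι : Type*} (s : Finset ι) (g : ι → Cube n → ℝ) (S : Finset (Fin n)) :
    coef (fun x => ∑ i ∈ s, g i x) S = ∑ i ∈ s, coef (g i) S := by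
  unfold coef
  rw [← ex_sum]
  congr 1
  funext x
  rw [Finset.sum_mul]

lemma coef_const_mul {n : ℕ} (c : ℝ) (g : Cube n → ℝ) (S : Finset (Fin n)) :
    coef (fun x => c * g x) S = c * coef g S := by
  unfold coef
  rw [← ex_const_mul]
  congr 1
  funext x
  ring

lemma degLE_mono {n d e : ℕ} {f : Cube n → ℝ} (hf : DegLE f d) (h : d ≤ e) : DegLE f e :=
  fun S hS => hf S (lt_of_le_of_lt h hS)

lemma degLE_chi {n : ℕ} (T : Finset (Fin n)) : DegLE (chi T) T.card := by
  intro S hS
  rw [coef_chi, if_neg]
  rintro rfl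
  exact lt_irrefl _ hS

lemma degLE_sum {n d : ℕ} {ι : Type*} (s : Finset ι) (g : ι → Cube n → ℝ)
    (h : ∀ i ∈ s, DegLE (g i) d) : DegLE (fun x => ∑ i ∈ s, g i x) d := by
  intro S hS
  rw [coef_sum]
  exact Finset.sum_eq_zero (fun i hi => h i hi S hS)

lemma degLE_const_mul {n d : ℕ} (c : ℝ) {g : Cube n → ℝ} (h : DegLE g d) :
    DegLE (fun x => c * g x) d := by
  intro S hS
  rw [coef_const_mul, h S hS, mul_zero]

lemma degLE_const {n d : ℕ} (c : ℝ) : DegLE (fun _ : Cube n => c) d := by
  have h : (fun _ : Cube n => c) = fun x => c * chi ∅ x := by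
    funext x; unfold chi; simp
  rw [h]
  apply degLE_const_mul
  exact degLE_mono (degLE_chi ∅) (by simp)

lemma degLE_add {n d : ℕ} {f g : Cube n → ℝ} (hf : DegLE f d) (hg : DegLE g d) :
    DegLE (fun x => f x + g x) d := by
  intro S hS
  have h : coef (fun x => f x + g x) S = coef f S + coef g S := by
    unfold coef
    rw [← ex_add]
    congr 1
    funext x
    ring
  rw [h, hf S hS, hg S hS, add_zero]

lemma degLE_mul {n d e : ℕ} {f g : Cube n → ℝ} (hf : DegLE f d) (hg : DegLE g e) :
    DegLE (fun x => f x * g x) (d + e) := by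
  have h : (fun x => f x * g x)
      = fun x => ∑ T : Finset (Fin n), ∑ U : Finset (Fin n),
          (coef f T * coef g U) * chi (symmDiff T U) x := by
    funext x
    rw [inversion f x, inversion g x, Finset.sum_mul_sum]
    apply Finset.sum_congr rfl
    intro T _
    apply Finset.sum_congr rfl
    intro U _
    rw [← chi_mul_chi]
    ring
  rw [h]
  apply degLE_sum
  intro T _
  apply degLE_sum
  intro U _
  by_cases hT : d < T.card
  · rw [hf T hT]
    simp only [zero_mul]
    exact degLE_const 0
  by_cases hU : e < U.card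
  · rw [hg U hU]
    simp only [mul_zero, zero_mul]
    exact degLE_const 0
  apply degLE_const_mul
  apply degLE_mono (degLE_chi _)
  have h1 : symmDiff T U ⊆ T ∪ U := by
    intro i hi
    rw [Finset.mem_symmDiff] at hi
    rw [Finset.mem_union]
    tauto
  have h2 := (Finset.card_le_card h1).trans (Finset.card_union_le T U)
  omega

lemma degLE_pow {n d : ℕ} {f : Cube n → ℝ} (hf : DegLE f d) (m : ℕ) :
    DegLE (fun x => f x ^ m) (m * d) := by
  induction m with
  | zero => simp only [pow_zero]; exact degLE_const 1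
  | succ m ih =>
    simp only [pow_succ]
    have := degLE_mul ih hf
    rw [Nat.succ_mul]
    exact this

/-- Composition with a univariate polynomial. -/
lemma degLE_eval {n d m : ℕ} {f : Cube n → ℝ} (hf : DegLE f d) (P : ℝ[X]) (hP : P.natDegree ≤ m) :
    DegLE (fun x => P.eval (f x)) (m * d) := by
  have h : (fun x => P.eval (f x))
      = fun x => ∑ i ∈ Finset.range (P.natDegree + 1), P.coeff i * f x ^ i := by
    funext x
    rw [Polynomial.eval_eq_sum_range]
  rw [h]
  apply degLE_sum
  intro i hi
  apply degLE_const_mul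
  apply degLE_mono (degLE_pow hf i)
  have : i ≤ m := by
    have := Finset.mem_range.mp hi
    omega
  exact Nat.mul_le_mul_right d this

end Pool.Agent.Helper11.Cube
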