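import Mathlib
import Pool.Agent.Helper11.Cube
import Pool.Agent.Helper11.Markov

/-!
The Bonami lemma (`(2,4)`-hypercontractivity) on the cube and its dual consequence
`W_k(g) ≤ 3^k ‖g‖_1 ‖g‖_2`.
-/

set_option linter.dupNamespace false

namespace Pool.Agent.Helper11.Cube

open Finset

lemma sum_cube_succ {n : ℕ} (f : Cube (n + 1) → ℝ) :
    ∑ x, f x = ∑ y : Cube n, (f (Fin.cons 1 y) + f (Fin.cons (-1) y)) := by
  rw [← (Fin.consEquiv (fun _ : Fin (n + 1) => ℤˣ)).sum_comp, Fintype.sum_prod_type, sum_units,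
    ← Finset.sum_add_distrib]
  rfl

lemma ex_succ {n : ℕ} (f : Cube (n + 1) → ℝ) :
    ex f = ex (fun y : Cube n => (f (Fin.cons 1 y) + f (Fin.cons (-1) y)) / 2) := by
  unfold ex
  rw [sum_cube_succ, ← Finset.sum_div, pow_succ]
  field_simp

/-- lift of a subset of `Fin n` to `Fin (n+1)` -/
def lift {n : ℕ} (S : Finset (Fin n)) : Finset (Fin (n + 1)) := S.map (Fin.succEmb n)

lemma card_lift {n : ℕ} (S : Finset (Fin n)) : (lift S).card = S.card := by
  unfold lift; rw [Finset.card_map]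

lemma zero_notMem_lift {n : ℕ} (S : Finset (Fin n)) : (0 : Fin (n + 1)) ∉ lift S := by
  unfold lift
  simp [Fin.succ_ne_zero]

lemma chi_lift {n : ℕ} (S : Finset (Fin n)) (u : ℤˣ) (y : Cube n) :
    chi (lift S) (Fin.cons u y : Cube (n + 1)) = chi S y := by
  unfold chi lift
  rw [Finset.prod_map]
  simp

lemma chi_insert_lift {n : ℕ} (S : Finset (Fin n)) (u : ℤˣ) (y : Cube n) :
    chi (insert 0 (lift S)) (Fin.cons u y : Cube (n + 1)) = ((u : ℤ) : ℝ) * chi S y := by
  have h := chi_lift S u y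
  unfold chi at h ⊢
  rw [Finset.prod_insert (zero_notMem_lift S), h]
  simp

/-- even part -/
noncomputable def evenPart {n : ℕ} (f : Cube (n + 1) → ℝ) (y : Cube n) : ℝ :=
  (f (Fin.cons 1 y) + f (Fin.cons (-1) y)) / 2

/-- odd part -/
noncomputable def oddPart {n : ℕ} (f : Cube (n + 1) → ℝ) (y : Cube n) : ℝ :=
  (f (Fin.cons 1 y) - f (Fin.cons (-1) y)) / 2

lemma coef_evenPart {n : ℕ} (f : Cube (n + 1) → ℝ) (S : Finset (Fin n)) :
    coef (evenPart f) S = coef f (lift S) := by
  unfold coef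
  rw [ex_succ]
  congr 1
  funext y
  rw [chi_lift, chi_lift]
  unfold evenPart
  ring

lemma coef_oddPart {n : ℕ} (f : Cube (n + 1) → ℝ) (S : Finset (Fin n)) :
    coef (oddPart f) S = coef f (insert 0 (lift S)) := by
  unfold coef
  rw [ex_succ]
  congr 1
  funext y
  rw [chi_insert_lift, chi_insert_lift]
  unfold oddPart
  push_cast
  ring

lemma degLE_evenPart {n d : ℕ} {f : Cube (n + 1) → ℝ} (hf : DegLE f d) : DegLE (evenPart f) d := by
  intro S hS
  rw [coef_evenPart]
  exact hf _ (by rwa [card_lift])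

lemma degLE_oddPart {n d : ℕ} {f : Cube (n + 1) → ℝ} (hf : DegLE f (d + 1)) :
    DegLE (oddPart f) d := by
  intro S hS
  rw [coef_oddPart]
  apply hf
  rw [Finset.card_insert_of_notMem (zero_notMem_lift S), card_lift]
  omega

lemma eq_const_of_degLE_zero {n : ℕ} {f : Cube n → ℝ} (hf : DegLE f 0) (x : Cube n) :
    f x = coef f ∅ := by
  rw [inversion f x, Finset.sum_eq_single ∅]
  · simp [chi]
  · intro S _ hS
    rw [hf S (Finset.card_pos.mpr (Finset.nonempty_iff_ne_empty.mpr hS)), zero_mul]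
  · intro h; exact absurd (Finset.mem_univ _) h

lemma cauchy_schwarz {n : ℕ} (f g : Cube n → ℝ) :
    ex (fun x => f x * g x) ^ 2 ≤ ex (fun x => f x ^ 2) * ex (fun x => g x ^ 2) := by
  unfold ex
  have h := Finset.sum_mul_sq_le_sq_mul_sq (Finset.univ : Finset (Cube n)) f g
  rw [div_pow, div_mul_div_comm, ← sq ((2 : ℝ) ^ n)]
  exact div_le_div_of_nonneg_right h (by positivity)

/-- Bonami's lemma. -/
theorem bonami : ∀ (n k : ℕ) (f : Cube n → ℝ), DegLE f k →
    ex (fun x => f x ^ 4) ≤ 9 ^ k * ex (fun x => f x ^ 2) ^ 2 := by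
  intro n
  induction n with
  | zero =>
    intro k f _
    have h : ∀ g : Cube 0 → ℝ, ex g = g (fun i => i.elim0) := by
      intro g
      unfold ex
      rw [Fintype.sum_unique]
      simp
      congr
    rw [h, h]
    have h1 : (1 : ℝ) ≤ 9 ^ k := one_le_pow₀ (by norm_num)
    nlinarith [sq_nonneg (f (fun i => i.elim0) ^ 2), h1]
  | succ n ih =>
    intro k f hf
    cases k with
    | zero =>
      have hc : ∀ x, f x = coef f ∅ := eq_const_of_degLE_zero hf
      have h4 : (fun x => f x ^ 4) = fun _ => (coef f ∅) ^ 4 := by funext x; rw [hc x]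
      have h2 : (fun x => f x ^ 2) = fun _ => (coef f ∅) ^ 2 := by funext x; rw [hc x]
      rw [h4, h2, ex_const, ex_const]
      apply le_of_eq; ring
    | succ k =>
      set g := evenPart f with hg
      set h := oddPart f with hh
      have e1 : ∀ y, f (Fin.cons 1 y) = g y + h y := by
        intro y; rw [hg, hh]; unfold evenPart oddPart; ring
      have e2 : ∀ y, f (Fin.cons (-1) y) = g y - h y := by
        intro y; rw [hg, hh]; unfold evenPart oddPart; ring
      have e4 : ex (fun x => f x ^ 4) = ex (fun y => g y ^ 4) + 6 * ex (fun y => g y ^ 2 * h y ^ 2)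
          + ex (fun y => h y ^ 4) := by
        rw [ex_succ, ← ex_const_mul, ← ex_add, ← ex_add]
        congr 1
        funext y
        rw [e1, e2]; ring
      have e5 : ex (fun x => f x ^ 2) = ex (fun y => g y ^ 2) + ex (fun y => h y ^ 2) := by
        rw [ex_succ, ← ex_add]
        congr 1
        funext y
        rw [e1, e2]; ring
      have hg4 := ih (k + 1) g (degLE_evenPart hf)
      have hh4 := ih k h (degLE_oddPart hf)
      set a := ex (fun y => g y ^ 2) with ha
      set b := ex (fun y => h y ^ 2) with hb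
      have ha0 : 0 ≤ a := ex_nonneg (fun y => sq_nonneg _)
      have hb0 : 0 ≤ b := ex_nonneg (fun y => sq_nonneg _)
      set c := ex (fun y => g y ^ 2 * h y ^ 2) with hcdef
      have hc0 : 0 ≤ c := ex_nonneg (fun y => by positivity)
      have hcs := cauchy_schwarz (fun y => g y ^ 2) (fun y => h y ^ 2)
      simp only [← pow_mul] at hcs
      norm_num at hcs
      have hc2 : c ^ 2 ≤ (3 * 9 ^ k * a * b) ^ 2 := by
        calc c ^ 2 ≤ ex (fun y => g y ^ 4) * ex (fun y => h y ^ 4) := hcs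
          _ ≤ (9 ^ (k + 1) * a ^ 2) * (9 ^ k * b ^ 2) := by
              apply mul_le_mul hg4 hh4 (ex_nonneg (fun y => by positivity))
              positivity
          _ = (3 * 9 ^ k * a * b) ^ 2 := by rw [pow_succ]; ring
      have hc3 : c ≤ 3 * 9 ^ k * a * b :=
        (pow_le_pow_iff_left₀ hc0 (by positivity) (by norm_num)).mp hc2
      rw [e4, e5]
      have h9 : (0 : ℝ) < 9 ^ k := by positivity
      calc ex (fun y => g y ^ 4) + 6 * c + ex (fun y => h y ^ 4)
          ≤ 9 ^ (k + 1) * a ^ 2 + 6 * (3 * 9 ^ k * a * b) + 9 ^ k * b ^ 2 := by linarith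
        _ ≤ 9 ^ (k + 1) * (a + b) ^ 2 := by
            rw [pow_succ]
            nlinarith [mul_nonneg h9.le (sq_nonneg b), mul_nonneg h9.le (mul_nonneg ha0 hb0)]

/-- The part of `f` of level exactly `k`. -/
noncomputable def levelPart {n : ℕ} (k : ℕ) (f : Cube n → ℝ) (x : Cube n) : ℝ :=
  ∑ S : Finset (Fin n), (if S.card = k then coef f S else 0) * chi S x

/-- Fourier weight at level `k`. -/
noncomputable def weight {n : ℕ} (k : ℕ) (f : Cube n → ℝ) : ℝ :=
  ∑ S ∈ univ.filter (fun S : Finset (Fin n) => S.card = k), coef f S ^ 2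

lemma weight_nonneg {n : ℕ} (k : ℕ) (f : Cube n → ℝ) : 0 ≤ weight k f :=
  Finset.sum_nonneg (fun _ _ => sq_nonneg _)

lemma coef_levelPart {n : ℕ} (k : ℕ) (f : Cube n → ℝ) (S : Finset (Fin n)) :
    coef (levelPart k f) S = if S.card = k then coef f S else 0 := by
  unfold levelPart
  rw [coef_poly]

lemma ex_levelPart_sq {n : ℕ} (k : ℕ) (f : Cube n → ℝ) :
    ex (fun x => levelPart k f x ^ 2) = weight k f := by
  rw [parseval]
  unfold weight
  rw [Finset.sum_filter]
  apply Finset.sum_congr rfl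
  intro S _
  rw [coef_levelPart]
  split_ifs <;> simp

lemma ex_levelPart_mul {n : ℕ} (k : ℕ) (f : Cube n → ℝ) :
    ex (fun x => levelPart k f x * f x) = weight k f := by
  rw [plancherel]
  unfold weight
  rw [Finset.sum_filter]
  apply Finset.sum_congr rfl
  intro S _
  rw [coef_levelPart]
  split_ifs
  · ring
  · ring

lemma degLE_levelPart {n : ℕ} (k : ℕ) (f : Cube n → ℝ) : DegLE (levelPart k f) k := by
  intro S hS
  rw [coef_levelPart, if_neg (by omega)]

/-- Level-`k` inequality between `L^1` and `L^2`. -/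
theorem weight_le {n : ℕ} (k : ℕ) (g : Cube n → ℝ) :
    weight k g ≤ 3 ^ k * ex (fun x => |g x|) * Real.sqrt (ex (fun x => g x ^ 2)) := by
  set W := weight k g with hW
  set A := ex (fun x => |g x|) with hA
  set B := ex (fun x => g x ^ 2) with hB
  have hW0 : 0 ≤ W := weight_nonneg k g
  have hA0 : 0 ≤ A := ex_nonneg (fun x => abs_nonneg _)
  have hB0 : 0 ≤ B := ex_nonneg (fun x => sq_nonneg _)
  have h4 : ex (fun x => levelPart k g x ^ 4) ≤ 9 ^ k * W ^ 2 := by
    have := bonami n k (levelPart k g) (degLE_levelPart k g)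
    rwa [ex_levelPart_sq] at this
  -- first Cauchy-Schwarz
  have c1 : W ^ 2 ≤ A * ex (fun x => |g x| * levelPart k g x ^ 2) := by
    have h1 := cauchy_schwarz (fun x => Real.sqrt |g x|) (fun x => Real.sqrt |g x| * |levelPart k g x|)
    have e1 : (fun x => Real.sqrt |g x| * (Real.sqrt |g x| * |levelPart k g x|))
        = fun x => |levelPart k g x * g x| := by
      funext x
      rw [← mul_assoc, Real.mul_self_sqrt (abs_nonneg _), abs_mul, mul_comm]
    have e2 : (fun x => Real.sqrt |g x| ^ 2) = fun x => |g x| := by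
      funext x; rw [Real.sq_sqrt (abs_nonneg _)]
    have e3 : (fun x => (Real.sqrt |g x| * |levelPart k g x|) ^ 2)
        = fun x => |g x| * levelPart k g x ^ 2 := by
      funext x; rw [mul_pow, Real.sq_sqrt (abs_nonneg _), sq_abs]
    rw [e1, e2, e3] at h1
    have h2 : W ≤ ex (fun x => |levelPart k g x * g x|) := by
      rw [hW, ← ex_levelPart_mul]
      exact le_trans (le_abs_self _) (abs_ex_le _)
    calc W ^ 2 ≤ ex (fun x => |levelPart k g x * g x|) ^ 2 := pow_le_pow_left₀ hW0 h2 2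
      _ ≤ _ := h1
  -- second Cauchy-Schwarz
  have c2 : ex (fun x => |g x| * levelPart k g x ^ 2) ^ 2 ≤ B * (9 ^ k * W ^ 2) := by
    have h1 := cauchy_schwarz (fun x => |g x|) (fun x => levelPart k g x ^ 2)
    simp only [sq_abs, ← pow_mul] at h1
    norm_num at h1
    exact le_trans h1 (mul_le_mul_of_nonneg_left h4 hB0)
  have hC0 : 0 ≤ ex (fun x => |g x| * levelPart k g x ^ 2) :=
    ex_nonneg (fun x => by positivity)
  by_cases hWz : W = 0
  · rw [hWz]; positivity
  have hWpos : 0 < W := lt_of_le_of_ne hW0 (Ne.symm hWz)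
  have c3 : (W ^ 2) ^ 2 ≤ (A ^ 2 * B * 9 ^ k) * W ^ 2 := by
    calc (W ^ 2) ^ 2 ≤ (A * ex (fun x => |g x| * levelPart k g x ^ 2)) ^ 2 :=
          pow_le_pow_left₀ (by positivity) c1 2
      _ = A ^ 2 * ex (fun x => |g x| * levelPart k g x ^ 2) ^ 2 := by ring
      _ ≤ A ^ 2 * (B * (9 ^ k * W ^ 2)) := mul_le_mul_of_nonneg_left c2 (by positivity)
      _ = (A ^ 2 * B * 9 ^ k) * W ^ 2 := by ring
  have c4 : W ^ 2 ≤ A ^ 2 * B * 9 ^ k := by
    have hp : 0 < W ^ 2 := by positivity
    nlinarith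
  have c5 : A ^ 2 * B * 9 ^ k = (3 ^ k * A * Real.sqrt B) ^ 2 := by
    rw [mul_pow, mul_pow, Real.sq_sqrt hB0, ← pow_mul, mul_comm k 2, pow_mul]
    norm_num
    ring
  rw [c5] at c4
  exact (pow_le_pow_iff_left₀ hW0 (by positivity) (by norm_num)).mp c4

end Pool.Agent.Helper11.Cube
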