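import Mathlib
import Pool.Agent.Helper11.Cube
import Pool.Agent.Helper11.Markov
import Pool.Agent.Helper11.AADefs

/-!
Decision trees (as a predicate on functions), the OSSS-type covariance inequality, and the
construction of a decision tree of depth `2 bs^3` for a function with many values.
-/

set_option linter.dupNamespace false

namespace Pool.Agent.Helper11.AA

open Finset Pool.Agent.Helper11.Cube

/-- `HasDT D F`: the function `F` is computed by a decision tree of depth at most `D`. -/
inductive HasDT {n : ℕ} : ℕ → (Cube n → ℝ) → Prop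
  | const (D : ℕ) (a : ℝ) (F : Cube n → ℝ) (h : ∀ x, F x = a) : HasDT D F
  | node (D : ℕ) (i : Fin n) (F F1 F2 : Cube n → ℝ) (h1 : HasDT D F1) (h2 : HasDT D F2)
      (hF : ∀ x, F x = if x i = 1 then F1 x else F2 x)
      (i1 : ∀ x, F1 (flipOn {i} x) = F1 x) (i2 : ∀ x, F2 (flipOn {i} x) = F2 x) : HasDT (D + 1) F

lemma HasDT.mono {n : ℕ} {D : ℕ} {F : Cube n → ℝ} (h : HasDT D F) :
    ∀ {D' : ℕ}, D ≤ D' → HasDT D' F := by
  induction h with
  | const D a F h => intro D' _; exact HasDT.const D' a F h
  | node D i F F1 F2 _ _ hF i1 i2 ih1 ih2 =>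
    intro D' hD'
    obtain ⟨E, rfl⟩ : ∃ E, D' = E + 1 := ⟨D' - 1, by omega⟩
    exact HasDT.node E i F F1 F2 (ih1 (by omega)) (ih2 (by omega)) hF i1 i2

lemma flipOn_flipOn {n : ℕ} (A : Finset (Fin n)) (x : Cube n) : flipOn A (flipOn A x) = x := by
  funext i
  by_cases h : i ∈ A <;> simp [flipOn, h]

lemma ex_flipOn {n : ℕ} (A : Finset (Fin n)) (g : Cube n → ℝ) :
    ex (fun x => g (flipOn A x)) = ex g := by
  unfold ex
  congr 1
  exact Fintype.sum_bijective (flipOn A) (Function.Involutive.bijective (flipOn_flipOn A)) _ _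
    (fun x => rfl)

/-- covariance -/
noncomputable def cov {n : ℕ} (F f : Cube n → ℝ) : ℝ := ex (fun x => F x * f x) - ex F * ex f

/-- The recursion for covariances at the root of a decision tree. -/
lemma cov_node {n : ℕ} (i : Fin n) (F F1 F2 f : Cube n → ℝ)
    (hF : ∀ x, F x = if x i = 1 then F1 x else F2 x)
    (i1 : ∀ x, F1 (flipOn {i} x) = F1 x) (i2 : ∀ x, F2 (flipOn {i} x) = F2 x) :
    cov F f = (1 / 2) * cov F1 f + (1 / 2) * cov F2 f
      + (1 / 2) * ex (fun x => (F1 x - F2 x) * discreteDeriv i f x) := by
  have hF' : ∀ x, F x = (1 / 2) * (F1 x + F2 x) + (1 / 2) * (((x i : ℤ) : ℝ) * (F1 x - F2 x)) := by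
    intro x
    rw [hF x]
    rcases Int.units_eq_one_or (x i) with h | h
    · simp [h]; ring
    · rw [if_neg (by rw [h]; decide), h]; push_cast; ring
  have key : ∀ g : Cube n → ℝ, ex (fun x => ((x i : ℤ) : ℝ) * (F1 x - F2 x) * g x)
      = ex (fun x => (F1 x - F2 x) * discreteDeriv i g x) := by
    intro g
    have e1 := ex_flipOn {i} (fun x => ((x i : ℤ) : ℝ) * (F1 x - F2 x) * g x)
    have e2 : ex (fun x => ((x i : ℤ) : ℝ) * (F1 x - F2 x) * g x)
        = (1 / 2) * (ex (fun x => ((x i : ℤ) : ℝ) * (F1 x - F2 x) * g x)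
          + ex (fun x => (fun x => ((x i : ℤ) : ℝ) * (F1 x - F2 x) * g x) (flipOn {i} x))) := by
      rw [e1]; ring
    rw [e2, ← ex_add, ← ex_const_mul]
    congr 1
    funext x
    simp only
    rw [i1, i2]
    have h3 : ((flipOn {i} x i : ℤˣ) : ℤ) = - ((x i : ℤˣ) : ℤ) := by simp [flipOn]
    rw [h3]
    have h4 := sub_flip g i x
    have h5 := unit_sq (x i)
    push_cast
    have h6 : g (flipOn {i} x) = g x - 2 * ((x i : ℤ) : ℝ) * discreteDeriv i g x := by linarith
    rw [h6]
    linear_combination (F1 x - F2 x) * discreteDeriv i g x * h5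
  have e1 : ex (fun x => F x * f x) = (1 / 2) * ex (fun x => F1 x * f x)
      + (1 / 2) * ex (fun x => F2 x * f x)
      + (1 / 2) * ex (fun x => (F1 x - F2 x) * discreteDeriv i f x) := by
    rw [← key, ← ex_const_mul, ← ex_const_mul, ← ex_const_mul, ← ex_add, ← ex_add]
    congr 1
    funext x
    rw [hF' x]; ring
  have e2 : ex F = (1 / 2) * ex F1 + (1 / 2) * ex F2 := by
    have h1 := key (fun _ => 1)
    have h2 : (fun x => (F1 x - F2 x) * discreteDeriv i (fun _ => (1 : ℝ)) x) = fun _ => 0 := by
      funext x; unfold discreteDeriv; simp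
    rw [h2, ex_const] at h1
    have h3 : ex F = (1 / 2) * ex F1 + (1 / 2) * ex F2
        + (1 / 2) * ex (fun x => ((x i : ℤ) : ℝ) * (F1 x - F2 x) * 1) := by
      rw [← ex_const_mul, ← ex_const_mul, ← ex_const_mul, ← ex_add, ← ex_add]
      congr 1
      funext x
      rw [hF' x]; ring
    rw [h3, h1]; ring
  unfold cov
  rw [e1, e2]; ring

/-- OSSS-type inequality: if `F` has a decision tree of depth `D` and `|F| ≤ B`, then
`|Cov(F,f)| ≤ B D max_j ‖D_j f‖_1`. -/
theorem osss {n : ℕ} {D : ℕ} {F : Cube n → ℝ} (h : HasDT D F) :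
    ∀ (B τ : ℝ) (f : Cube n → ℝ), (∀ x, |F x| ≤ B) → 0 ≤ τ →
      (∀ j, ex (fun x => |discreteDeriv j f x|) ≤ τ) → |cov F f| ≤ B * D * τ := by
  induction h with
  | const D a F h =>
    intro B τ f hB hτ _
    have hB0 : 0 ≤ B := le_trans (abs_nonneg _) (hB (fun _ => 1))
    have : cov F f = 0 := by
      unfold cov
      have h1 : F = fun _ => a := by funext x; exact h x
      rw [h1, ex_const_mul, ex_const]; ring
    rw [this, abs_zero]
    positivity
  | node D i F F1 F2 _ _ hF i1 i2 ih1 ih2 =>
    intro B τ f hB hτ hf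
    have hB0 : 0 ≤ B := le_trans (abs_nonneg _) (hB (fun _ => 1))
    have hB1 : ∀ x, |F1 x| ≤ B := by
      intro x
      rcases Int.units_eq_one_or (x i) with h | h
      · have := hB x; rw [hF x, if_pos h] at this; exact this
      · have h2 : flipOn {i} x i = 1 := by simp [flipOn, h]
        have := hB (flipOn {i} x); rw [hF, if_pos h2, i1] at this; exact this
    have hB2 : ∀ x, |F2 x| ≤ B := by
      intro x
      rcases Int.units_eq_one_or (x i) with h | h
      · have h2 : ¬ flipOn {i} x i = 1 := by simp [flipOn, h]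
        have := hB (flipOn {i} x); rw [hF, if_neg h2, i2] at this; exact this
      · have h2 : ¬ x i = 1 := by rw [h]; decide
        have := hB x; rw [hF x, if_neg h2] at this; exact this
    have c1 := ih1 B τ f hB1 hτ hf
    have c2 := ih2 B τ f hB2 hτ hf
    have c3 : |ex (fun x => (F1 x - F2 x) * discreteDeriv i f x)| ≤ 2 * B * τ := by
      calc |ex (fun x => (F1 x - F2 x) * discreteDeriv i f x)|
          ≤ ex (fun x => |(F1 x - F2 x) * discreteDeriv i f x|) := abs_ex_le _
        _ ≤ ex (fun x => 2 * B * |discreteDeriv i f x|) := by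
            apply ex_mono
            intro x
            rw [abs_mul]
            apply mul_le_mul_of_nonneg_right _ (abs_nonneg _)
            calc |F1 x - F2 x| ≤ |F1 x| + |F2 x| := abs_sub _ _
              _ ≤ 2 * B := by linarith [hB1 x, hB2 x]
        _ = 2 * B * ex (fun x => |discreteDeriv i f x|) := ex_const_mul _ _
        _ ≤ 2 * B * τ := mul_le_mul_of_nonneg_left (hf i) (by positivity)
    rw [cov_node i F F1 F2 f hF i1 i2]
    rw [abs_le] at c1 c2 c3 ⊢
    push_cast
    constructor <;> nlinarith [c1.1, c1.2, c2.1, c2.2, c3.1, c3.2]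

/-- Restriction: coordinates in `Q` are replaced by those of `z`. -/
def merge {n : ℕ} (Q : Finset (Fin n)) (z x : Cube n) : Cube n := fun i => if i ∈ Q then z i else x i

/-- A block is sensitive for `F` at `y`. -/
def Sens {n : ℕ} (F : Cube n → ℝ) (y : Cube n) (A : Finset (Fin n)) : Prop := F (flipOn A y) ≠ F y

/-- For inputs consistent with the restriction `(Q,z)`, there are at most `b` disjoint sensitive
blocks outside `Q`. -/
def BS {n : ℕ} (F : Cube n → ℝ) (Q : Finset (Fin n)) (z : Cube n) (b : ℕ) : Prop :=
  ∀ y : Cube n, (∀ i ∈ Q, y i = z i) → ∀ C : Finset (Finset (Fin n)),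
    (C : Set (Finset (Fin n))).PairwiseDisjoint id → (∀ A ∈ C, Disjoint A Q ∧ Sens F y A) →
      C.card ≤ b

lemma Sens.nonempty {n : ℕ} {F : Cube n → ℝ} {y : Cube n} {A : Finset (Fin n)}
    (h : Sens F y A) : A.Nonempty := by
  rw [Finset.nonempty_iff_ne_empty]
  rintro rfl
  exact h (by rw [flip_empty])

lemma flipOn_diff {n : ℕ} (y w : Cube n) :
    flipOn (univ.filter (fun i => w i ≠ y i)) y = w := by
  funext i
  by_cases h : w i = y i
  · simp [flipOn, h]
  · simp only [flipOn, Finset.mem_filter, Finset.mem_univ, true_and, ne_eq, h, not_false_eq_true,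
      if_true]
    rcases Int.units_eq_one_or (w i) with h1 | h1 <;> rcases Int.units_eq_one_or (y i) with h2 | h2
    · exact absurd (h1.trans h2.symm) h
    · rw [h1, h2]; simp
    · rw [h1, h2]
    · exact absurd (h1.trans h2.symm) h

/-- Minimal sensitive blocks are small. -/
lemma card_minimal_le {n : ℕ} {F : Cube n → ℝ} {Q : Finset (Fin n)} {z : Cube n} {b : ℕ}
    (hBS : BS F Q z b) {y : Cube n} (hy : ∀ i ∈ Q, y i = z i) {A : Finset (Fin n)}
    (hAQ : Disjoint A Q) (hA : Sens F y A) (hmin : ∀ A' ⊂ A, ¬ Sens F y A') : A.card ≤ b := by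
  have h1 : (A.image (fun i => ({i} : Finset (Fin n)))).card = A.card :=
    Finset.card_image_of_injective _ Finset.singleton_injective
  rw [← h1]
  apply hBS (flipOn A y)
  · intro i hi
    have : i ∉ A := fun h => (Finset.disjoint_left.mp hAQ h) hi
    simp [flipOn, this, hy i hi]
  · intro B hB C hC hBC
    simp only [Finset.coe_image, Set.mem_image, Finset.mem_coe] at hB hC
    obtain ⟨i, _, rfl⟩ := hB
    obtain ⟨j, _, rfl⟩ := hC
    have : i ≠ j := fun h => hBC (by rw [h])
    simp [Function.onFun, this]
  · intro B hB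
    obtain ⟨i, hi, rfl⟩ := Finset.mem_image.mp hB
    refine ⟨Finset.disjoint_singleton_left.mpr (Finset.disjoint_left.mp hAQ hi), ?_⟩
    have h2 : flipOn {i} (flipOn A y) = flipOn (A.erase i) y := by
      funext j
      by_cases hji : j = i
      · subst hji; simp [flipOn, hi]
      · simp [flipOn, hji]
    unfold Sens
    rw [h2]
    have h3 : ¬ Sens F y (A.erase i) := hmin _ (Finset.erase_ssubset hi)
    unfold Sens at h3 hA
    push Not at h3
    rw [h3]
    exact hA.symm

/-- Every sensitive block contains a minimal one. -/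
lemma exists_minimal {n : ℕ} {F : Cube n → ℝ} {y : Cube n} (A : Finset (Fin n))
    (hA : Sens F y A) : ∃ A' ⊆ A, Sens F y A' ∧ ∀ A'' ⊂ A', ¬ Sens F y A'' := by
  induction A using Finset.strongInduction with
  | H A ih =>
    by_cases h : ∃ A' ⊂ A, Sens F y A'
    · obtain ⟨A', h1, h2⟩ := h
      obtain ⟨A'', h3, h4, h5⟩ := ih A' h1 h2
      exact ⟨A'', h3.trans h1.subset, h4, h5⟩
    · push Not at h
      exact ⟨A, Finset.Subset.refl _, hA, h⟩

/-- Certificates of size at most `b^2`. -/
lemma exists_certificate {n : ℕ} {F : Cube n → ℝ} {Q : Finset (Fin n)} {z : Cube n} {b : ℕ}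
    (hBS : BS F Q z b) (y : Cube n) (hy : ∀ i ∈ Q, y i = z i) :
    ∃ C : Finset (Fin n), Disjoint C Q ∧ C.card ≤ b * b ∧
      ∀ w : Cube n, (∀ i ∈ Q, w i = z i) → (∀ i ∈ C, w i = y i) → F w = F y := by
  classical
  -- families of disjoint minimal sensitive blocks
  let P : Finset (Finset (Fin n)) → Prop := fun C =>
    (C : Set (Finset (Fin n))).PairwiseDisjoint id ∧
      ∀ A ∈ C, Disjoint A Q ∧ Sens F y A ∧ ∀ A' ⊂ A, ¬ Sens F y A'
  have hP0 : P ∅ := ⟨by simp, by simp⟩
  obtain ⟨C, hCP, hCmax⟩ : ∃ C, P C ∧ ∀ C', P C' → C'.card ≤ C.card := by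
    have hbdd : ∀ C, P C → C.card ≤ b := fun C hC => hBS y hy C hC.1
      (fun A hA => ⟨(hC.2 A hA).1, (hC.2 A hA).2.1⟩)
    by_contra hcon
    push Not at hcon
    have : ∀ m : ℕ, ∃ C, P C ∧ m ≤ C.card := by
      intro m
      induction m with
      | zero => exact ⟨∅, hP0, Nat.zero_le _⟩
      | succ m ih =>
        obtain ⟨C, hC, hm⟩ := ih
        obtain ⟨C', hC', hlt⟩ := hcon C hC
        exact ⟨C', hC', by omega⟩
    obtain ⟨C, hC, hm⟩ := this (b + 1)
    have := hbdd C hC
    omega
  refine ⟨C.biUnion id, ?_, ?_, ?_⟩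
  · rw [Finset.disjoint_biUnion_left]
    intro A hA
    exact (hCP.2 A hA).1
  · calc (C.biUnion id).card ≤ ∑ A ∈ C, (id A).card := Finset.card_biUnion_le
      _ ≤ ∑ _A ∈ C, b := by
          apply Finset.sum_le_sum
          intro A hA
          obtain ⟨h1, h2, h3⟩ := hCP.2 A hA
          exact card_minimal_le hBS hy h1 h2 h3
      _ = C.card * b := by rw [Finset.sum_const, smul_eq_mul]
      _ ≤ b * b := Nat.mul_le_mul_right _ (hBS y hy C hCP.1
          (fun A hA => ⟨(hCP.2 A hA).1, (hCP.2 A hA).2.1⟩))
  · intro w hwQ hwC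
    by_contra hne
    set A := univ.filter (fun i => w i ≠ y i) with hAdef
    have hAs : Sens F y A := by
      unfold Sens; rw [hAdef, flipOn_diff]; exact hne
    obtain ⟨A', hsub, hA's, hA'min⟩ := exists_minimal A hAs
    have hAQ : Disjoint A' Q := by
      rw [Finset.disjoint_left]
      intro i hi hiQ
      have := (Finset.mem_filter.mp (hsub hi)).2
      exact this (by rw [hwQ i hiQ, hy i hiQ])
    have hAC : ∀ B ∈ C, Disjoint A' B := by
      intro B hB
      rw [Finset.disjoint_left]
      intro i hi hiB
      have := (Finset.mem_filter.mp (hsub hi)).2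
      exact this (hwC i (Finset.mem_biUnion.mpr ⟨B, hB, hiB⟩))
    have hnot : A' ∉ C := by
      intro hmem
      have := hAC A' hmem
      rw [disjoint_self] at this
      have h2 := hA's.nonempty
      rw [this] at h2
      exact absurd h2 (by simp)
    have hPnew : P (insert A' C) := by
      constructor
      · rw [Finset.coe_insert]
        apply Set.PairwiseDisjoint.insert hCP.1
        intro B hB _
        exact hAC B hB
      · intro B hB
        rcases Finset.mem_insert.mp hB with rfl | hB
        · exact ⟨hAQ, hA's, hA'min⟩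
        · exact hCP.2 B hB
    have := hCmax _ hPnew
    rw [Finset.card_insert_of_notMem hnot] at this
    omega

/-- Querying all coordinates of `C`. -/
lemma hasDT_query {n : ℕ} {F : Cube n → ℝ} {D : ℕ} (C : Finset (Fin n)) :
    ∀ (Q : Finset (Fin n)) (z : Cube n), Disjoint C Q →
      (∀ z' : Cube n, (∀ i ∈ Q, z' i = z i) → HasDT D (fun x => F (merge (Q ∪ C) z' x))) →
        HasDT (D + C.card) (fun x => F (merge Q z x)) := by
  induction C using Finset.induction_on with
  | empty =>
    intro Q z _ h
    have := h z (fun i _ => rfl)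
    simpa using this
  | insert i C hi ih =>
    intro Q z hdisj h
    have hiQ : i ∉ Q := by
      rw [Finset.disjoint_insert_left] at hdisj
      exact hdisj.1
    have hCQ : Disjoint C (insert i Q) := by
      rw [Finset.disjoint_insert_left] at hdisj
      rw [Finset.disjoint_insert_right]
      exact ⟨hi, hdisj.2⟩
    have sub : ∀ u : ℤˣ, HasDT (D + C.card)
        (fun x => F (merge (insert i Q) (Function.update z i u) x)) := by
      intro u
      apply ih (insert i Q) (Function.update z i u) hCQ
      intro z' hz'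
      have h1 : insert i Q ∪ C = Q ∪ insert i C := by
        ext j; simp only [Finset.mem_union, Finset.mem_insert]; tauto
      rw [h1]
      apply h z'
      intro j hj
      rw [hz' j (Finset.mem_insert_of_mem hj), Function.update_of_ne]
      rintro rfl
      exact hiQ hj
    rw [Finset.card_insert_of_notMem hi, ← Nat.add_assoc]
    refine HasDT.node _ i _ _ _ (sub 1) (sub (-1)) ?_ ?_ ?_
    · intro x
      have hm : ∀ u : ℤˣ, x i = u → merge Q z x = merge (insert i Q) (Function.update z i u) x := by
        intro u hu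
        funext j
        unfold merge
        by_cases hj : j = i
        · subst hj; simp [hiQ, hu]
        · simp [hj]
      split_ifs with hx
      · exact congrArg F (hm 1 hx)
      · have hx' : x i = -1 := by
          rcases Int.units_eq_one_or (x i) with h | h
          · exact absurd h hx
          · exact h
        exact congrArg F (hm (-1) hx')
    · intro x
      congr 1
      funext j
      unfold merge flipOn
      by_cases hj : j = i
      · subst hj; simp
      · simp [hj]
    · intro x
      congr 1
      funext j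
      unfold merge flipOn
      by_cases hj : j = i
      · subst hj; simp
      · simp [hj]

lemma merge_agree {n : ℕ} (Q : Finset (Fin n)) (z x : Cube n) : ∀ i ∈ Q, merge Q z x i = z i := by
  intro i hi; simp [merge, hi]

/-- Decision trees from block sensitivity. -/
theorem hasDT_of_BS {n : ℕ} {F : Cube n → ℝ} (β : ℕ) : ∀ (b : ℕ) (Q : Finset (Fin n)) (z : Cube n),
    b ≤ β → BS F Q z b → HasDT (b * (2 * (β * β))) (fun x => F (merge Q z x)) := by
  intro b
  induction b with
  | zero =>
    intro Q z _ hBS
    apply HasDT.const _ (F z)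
    intro x
    by_contra hne
    have hs : Sens F z (univ.filter (fun i => merge Q z x i ≠ z i)) := by
      unfold Sens; rw [flipOn_diff]; exact hne
    have := hBS z (fun i _ => rfl) {univ.filter (fun i => merge Q z x i ≠ z i)} (by simp) (by
      intro A hA
      rw [Finset.mem_singleton] at hA
      subst hA
      refine ⟨?_, hs⟩
      rw [Finset.disjoint_left]
      intro i hi hiQ
      exact (Finset.mem_filter.mp hi).2 (merge_agree Q z x i hiQ))
    simp at this
  | succ b ih =>
    intro Q z hb hBS
    by_cases hconst : ∀ x, F (merge Q z x) = F z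
    · exact HasDT.const _ (F z) _ hconst
    push Not at hconst
    obtain ⟨x0, hx0⟩ := hconst
    set x1 := merge Q z x0 with hx1
    have hx1Q : ∀ i ∈ Q, x1 i = z i := merge_agree Q z x0
    obtain ⟨C1, hC1Q, hC1c, hC1⟩ := exists_certificate hBS x1 hx1Q
    obtain ⟨C2, hC2Q, hC2c, hC2⟩ := exists_certificate hBS z (fun i _ => rfl)
    have hdisj : Disjoint (C1 ∪ C2) Q := Finset.disjoint_union_left.mpr ⟨hC1Q, hC2Q⟩
    have hcard : (C1 ∪ C2).card ≤ 2 * (β * β) := by
      calc (C1 ∪ C2).card ≤ C1.card + C2.card := Finset.card_union_le _ _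
        _ ≤ (b + 1) * (b + 1) + (b + 1) * (b + 1) := by omega
        _ ≤ β * β + β * β := Nat.add_le_add (Nat.mul_le_mul hb hb) (Nat.mul_le_mul hb hb)
        _ = 2 * (β * β) := by ring
    have hq : HasDT (b * (2 * (β * β)) + (C1 ∪ C2).card) (fun x => F (merge Q z x)) := by
      apply hasDT_query (C1 ∪ C2) Q z hdisj
      intro z' hz'
      apply ih (Q ∪ (C1 ∪ C2)) z' (by omega)
      intro y hy C hCdisj hC
      have hyQ : ∀ i ∈ Q, y i = z i := by
        intro i hi
        rw [hy i (Finset.mem_union_left _ hi), hz' i hi]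
      -- a certificate with a different value
      have main : ∀ (w : Cube n) (C0 : Finset (Fin n)), C0 ⊆ C1 ∪ C2 → Disjoint C0 Q →
          (∀ v : Cube n, (∀ i ∈ Q, v i = z i) → (∀ i ∈ C0, v i = w i) → F v = F w) →
            F y ≠ F w → C.card ≤ b := by
        intro w C0 hC0 hC0Q hcert hne
        set A := C0.filter (fun i => y i ≠ w i) with hA
        have hAC0 : A ⊆ C0 := Finset.filter_subset _ _
        have hAQ : Disjoint A Q := Finset.disjoint_of_subset_left hAC0 hC0Q
        have hval : F (flipOn A y) = F w := by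
          apply hcert
          · intro i hi
            have : i ∉ A := fun h => (Finset.disjoint_left.mp hAQ h) hi
            simp [flipOn, this, hyQ i hi]
          · intro i hi
            by_cases hiy : y i = w i
            · have : i ∉ A := fun h => (Finset.mem_filter.mp h).2 hiy
              simp [flipOn, this, hiy]
            · have hmem : i ∈ A := Finset.mem_filter.mpr ⟨hi, hiy⟩
              simp only [flipOn, hmem, if_true]
              rcases Int.units_eq_one_or (w i) with h1 | h1 <;>
                rcases Int.units_eq_one_or (y i) with h2 | h2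
              · exact absurd (h2.trans h1.symm) hiy
              · rw [h1, h2]; simp
              · rw [h1, h2]
              · exact absurd (h2.trans h1.symm) hiy
        have hAs : Sens F y A := by unfold Sens; rw [hval]; exact hne.symm
        have hAB : ∀ B ∈ C, Disjoint A B := by
          intro B hB
          have h1 := (hC B hB).1
          rw [Finset.disjoint_union_right] at h1
          exact (Finset.disjoint_of_subset_right (hAC0.trans hC0) h1.2).symm
        have hnot : A ∉ C := by
          intro hmem
          have := hAB A hmem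
          rw [disjoint_self] at this
          have h2 := hAs.nonempty
          rw [this] at h2
          exact absurd h2 (by simp)
        have hcount := hBS y hyQ (insert A C) (by
            rw [Finset.coe_insert]
            apply Set.PairwiseDisjoint.insert hCdisj
            intro B hB _
            exact hAB B hB) (by
            intro B hB
            rcases Finset.mem_insert.mp hB with rfl | hB
            · exact ⟨hAQ, hAs⟩
            · refine ⟨?_, (hC B hB).2⟩
              have h1 := (hC B hB).1
              rw [Finset.disjoint_union_right] at h1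
              exact h1.1)
        rw [Finset.card_insert_of_notMem hnot] at hcount
        omega
      by_cases hyx : F y = F x1
      · have hyz : F y ≠ F z := by rw [hyx]; exact hx0
        exact main z C2 Finset.subset_union_right hC2Q hC2 hyz
      · exact main x1 C1 Finset.subset_union_left hC1Q hC1 hyx
    refine hq.mono ?_
    calc b * (2 * (β * β)) + (C1 ∪ C2).card ≤ b * (2 * (β * β)) + 2 * (β * β) := by omega
      _ = (b + 1) * (2 * (β * β)) := by ring

/-- A function with block sensitivity at most `β` has a decision tree of depth `2 β^3`. -/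
theorem hasDT_of_blockSensitivity {n : ℕ} {F : Cube n → ℝ} (β : ℕ)
    (h : ∀ y : Cube n, ∀ C : Finset (Finset (Fin n)),
      (C : Set (Finset (Fin n))).PairwiseDisjoint id → (∀ A ∈ C, F (flipOn A y) ≠ F y) →
        C.card ≤ β) :
    HasDT (2 * β ^ 3) F := by
  have hBS : BS F ∅ (fun _ => 1) β := by
    intro y _ C hC hA
    exact h y C hC (fun A hmem => (hA A hmem).2)
  have h1 := hasDT_of_BS β β ∅ (fun _ => 1) le_rfl hBS
  have h2 : (fun x => F (merge ∅ (fun _ => 1) x)) = F := by
    funext x
    congr 1
  rw [h2] at h1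
  refine h1.mono ?_
  apply le_of_eq; ring

end Pool.Agent.Helper11.AA
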