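import Mathlib
import Pool.Agent.Helper11.Cube
import Pool.Agent.Helper11.Markov
import Pool.Agent.Helper11.Bonami
import Pool.Agent.Helper11.AAQuantities
import Pool.Agent.Helper11.AADefs

/-!
Low level Fourier weight: `∑_{|S| ≤ k} |S| \hat f(S)^2 ≤ (3^k - 1) d^2 ‖f‖_∞ M(f)`.
-/

set_option linter.dupNamespace false

namespace Pool.Agent.Results.MP_f992e4_an.LowLevel

open Finset Pool.Agent.Helper11.Cube Pool.Agent.Helper11.AA

lemma coef_eq {n : ℕ} (f : Cube n → ℝ) (S : Finset (Fin n)) : fourierCoeff f S = coef f S := rfl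

/-- Fourier expansion of the derivative. -/
lemma deriv_expansion {n : ℕ} (f : Cube n → ℝ) (j : Fin n) (x : Cube n) :
    ((x j : ℤ) : ℝ) * discreteDeriv j f x
      = ∑ S : Finset (Fin n), (if j ∈ S then coef f S else 0) * chi S x := by
  have h3 := sub_flip f j x
  conv_lhs at h3 => rw [inversion f x, inversion f (flipOn {j} x)]
  rw [← Finset.sum_sub_distrib] at h3
  have h4 : ∀ S ∈ (univ : Finset (Finset (Fin n))),
      coef f S * chi S x - coef f S * chi S (flipOn {j} x)
      = 2 * ((if j ∈ S then coef f S else 0) * chi S x) := by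
    intro S _
    rw [chi_flip]
    split_ifs with hj
    · rw [Finset.inter_singleton_of_mem hj]; simp; ring
    · rw [Finset.inter_singleton_of_notMem hj]; simp
  rw [Finset.sum_congr rfl h4, ← Finset.mul_sum] at h3
  linarith

lemma chi_symmDiff_single {n : ℕ} (j : Fin n) (S : Finset (Fin n)) (x : Cube n) :
    chi (symmDiff S {j}) x = chi S x * ((x j : ℤ) : ℝ) := by
  rw [← chi_mul_chi]
  congr 1
  unfold chi
  simp

/-- The coefficients of the derivative. -/
lemma coef_deriv {n : ℕ} (f : Cube n → ℝ) (j : Fin n) (S : Finset (Fin n)) :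
    coef (discreteDeriv j f) S = if j ∈ symmDiff S {j} then coef f (symmDiff S {j}) else 0 := by
  have h := coef_poly (fun S : Finset (Fin n) => if j ∈ S then coef f S else 0) (symmDiff S {j})
  rw [← h]
  have h2 : (fun x => ∑ T : Finset (Fin n), (if j ∈ T then coef f T else 0) * chi T x)
      = fun x => ((x j : ℤ) : ℝ) * discreteDeriv j f x := by
    funext x
    rw [deriv_expansion f j x]
  rw [h2]
  unfold coef
  congr 1
  funext x
  rw [chi_symmDiff_single]
  have h5 := unit_sq (x j)
  linear_combination (- discreteDeriv j f x * chi S x) * h5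

lemma coef_deriv_of_notMem {n : ℕ} (f : Cube n → ℝ) (j : Fin n) {S : Finset (Fin n)} (h : j ∉ S) :
    coef (discreteDeriv j f) S = coef f (insert j S) := by
  have h1 : symmDiff S {j} = insert j S := by
    ext i
    simp only [Finset.mem_symmDiff, Finset.mem_singleton, Finset.mem_insert]
    by_cases hij : i = j
    · subst hij; simp [h]
    · simp [hij]
  rw [coef_deriv, h1, if_pos (Finset.mem_insert_self _ _)]

lemma coef_deriv_of_mem {n : ℕ} (f : Cube n → ℝ) (j : Fin n) {S : Finset (Fin n)} (h : j ∈ S) :
    coef (discreteDeriv j f) S = 0 := by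
  rw [coef_deriv, if_neg]
  simp [Finset.mem_symmDiff, h]

/-- `(k+1) W_{k+1}(f) = ∑_j W_k(D_j f)`. -/
lemma weight_deriv {n : ℕ} (f : Cube n → ℝ) (k : ℕ) :
    ((k : ℝ) + 1) * weight (k + 1) f = ∑ j, weight k (discreteDeriv j f) := by
  have h1 : ∀ j : Fin n, weight k (discreteDeriv j f)
      = ∑ S ∈ univ.filter (fun S : Finset (Fin n) => S.card = k + 1 ∧ j ∈ S), coef f S ^ 2 := by
    intro j
    have h2 : weight k (discreteDeriv j f)
        = ∑ S ∈ univ.filter (fun S : Finset (Fin n) => S.card = k ∧ j ∉ S),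
            coef f (insert j S) ^ 2 := by
      unfold weight
      rw [← Finset.sum_filter_add_sum_filter_not _ (fun S : Finset (Fin n) => j ∉ S)]
      rw [Finset.filter_filter, Finset.filter_filter]
      rw [Finset.sum_congr rfl (g := fun S => coef f (insert j S) ^ 2) (by
        intro S hS
        rw [coef_deriv_of_notMem f j (Finset.mem_filter.mp hS).2.2])]
      rw [Finset.sum_eq_zero (s := univ.filter (fun S : Finset (Fin n) => S.card = k ∧ ¬ j ∉ S)),
        add_zero]
      intro S hS
      rw [coef_deriv_of_mem f j (not_not.mp (Finset.mem_filter.mp hS).2.2)]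
      ring
    rw [h2]
    refine Finset.sum_bij' (fun S _ => insert j S) (fun S _ => S.erase j) ?_ ?_ ?_ ?_ ?_
    · intro S hS
      obtain ⟨hc, hj⟩ := (Finset.mem_filter.mp hS).2
      simp [Finset.card_insert_of_notMem hj, hc]
    · intro S hS
      obtain ⟨hc, hj⟩ := (Finset.mem_filter.mp hS).2
      simp [Finset.card_erase_of_mem hj, hc]
    · intro S hS
      exact Finset.erase_insert (Finset.mem_filter.mp hS).2.2
    · intro S hS
      exact Finset.insert_erase (Finset.mem_filter.mp hS).2.2
    · intro S _; rfl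
  simp_rw [h1]
  have h3 : ∀ j : Fin n,
      ∑ S ∈ univ.filter (fun S : Finset (Fin n) => S.card = k + 1 ∧ j ∈ S), coef f S ^ 2
      = ∑ S ∈ univ.filter (fun S : Finset (Fin n) => S.card = k + 1),
          (if j ∈ S then coef f S ^ 2 else 0) := by
    intro j
    rw [← Finset.filter_filter, Finset.sum_filter]
  simp_rw [h3]
  rw [Finset.sum_comm]
  unfold weight
  rw [Finset.mul_sum]
  apply Finset.sum_congr rfl
  intro S hS
  have hc := (Finset.mem_filter.mp hS).2
  rw [← Finset.sum_filter, Finset.sum_const]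
  have h4 : univ.filter (fun j => j ∈ S) = S := by ext; simp
  rw [h4, hc, nsmul_eq_mul]
  push_cast
  ring

/-- One level. -/
lemma level_bound {n d : ℕ} {f : Cube n → ℝ} (hf : DegLE f d) (k : ℕ) :
    ((k : ℝ) + 1) * weight (k + 1) f ≤ 2 * 3 ^ k * (d : ℝ) ^ 2 * supNorm f * maxDerivNorm f := by
  rw [weight_deriv]
  have hM0 := maxDerivNorm_nonneg f
  calc ∑ j, weight k (discreteDeriv j f)
      ≤ ∑ j, 3 ^ k * ex (fun x => |discreteDeriv j f x|) * maxDerivNorm f := by
        apply Finset.sum_le_sum
        intro j _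
        refine le_trans (weight_le k (discreteDeriv j f)) ?_
        apply mul_le_mul_of_nonneg_left (derivNorm_le f j)
        exact mul_nonneg (by positivity) (ex_nonneg (fun x => abs_nonneg _))
    _ = 3 ^ k * maxDerivNorm f * ex (fun x => ∑ j, |discreteDeriv j f x|) := by
        rw [ex_sum, Finset.mul_sum]
        apply Finset.sum_congr rfl
        intro j _
        ring
    _ ≤ 3 ^ k * maxDerivNorm f * ex (fun _ : Cube n => 2 * (d : ℝ) ^ 2 * supNorm f) := by
        apply mul_le_mul_of_nonneg_left _ (by positivity)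
        apply ex_mono
        intro x
        exact sum_abs_deriv_le hf (le_supNorm f) x
    _ = _ := by rw [ex_const]; ring

lemma low_levels {n d : ℕ} {f : Cube n → ℝ} (hf : DegLE f d) (k : ℕ) :
    ∑ S ∈ univ.filter (fun S : Finset (Fin n) => S.card ≤ k), (S.card : ℝ) * coef f S ^ 2
      ≤ (3 ^ k - 1) * (d : ℝ) ^ 2 * supNorm f * maxDerivNorm f := by
  induction k with
  | zero =>
    rw [Finset.sum_eq_zero]
    · simp
    · intro S hS
      have : S.card = 0 := Nat.le_zero.mp (Finset.mem_filter.mp hS).2
      simp [this]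
  | succ k ih =>
    have h1 : univ.filter (fun S : Finset (Fin n) => S.card ≤ k + 1)
        = univ.filter (fun S : Finset (Fin n) => S.card ≤ k)
          ∪ univ.filter (fun S : Finset (Fin n) => S.card = k + 1) := by
      ext S
      simp only [Finset.mem_filter, Finset.mem_univ, true_and, Finset.mem_union]
      omega
    have h2 : Disjoint (univ.filter (fun S : Finset (Fin n) => S.card ≤ k))
        (univ.filter (fun S : Finset (Fin n) => S.card = k + 1)) := by
      rw [Finset.disjoint_filter]
      intro S _ h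
      omega
    rw [h1, Finset.sum_union h2]
    have h3 : ∑ S ∈ univ.filter (fun S : Finset (Fin n) => S.card = k + 1),
        (S.card : ℝ) * coef f S ^ 2 = ((k : ℝ) + 1) * weight (k + 1) f := by
      unfold weight
      rw [Finset.mul_sum]
      apply Finset.sum_congr rfl
      intro S hS
      rw [(Finset.mem_filter.mp hS).2]
      push_cast
      ring
    rw [h3]
    have h4 := level_bound hf k
    rw [pow_succ]
    linarith

/-- **Main result.** For every real function `f` of degree at most `d` on the cube and every `k`,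
`∑_{|S| ≤ k} |S| \hat f(S)^2 ≤ (3^k - 1) d^2 ‖f‖_∞ M(f)`. -/
theorem result (n d k : ℕ) (f : (Fin n → ℤˣ) → ℝ) (hdeg : DegreeAtMost f d) :
    ∑ S ∈ univ.filter (fun S : Finset (Fin n) => S.card ≤ k),
        (S.card : ℝ) * fourierCoeff f S ^ 2
      ≤ (3 ^ k - 1) * (d : ℝ) ^ 2 * supNorm f * maxDerivNorm f := by
  have hf : DegLE f d := (degreeAtMost_iff f d).mp hdeg
  simp_rw [coef_eq]
  exact low_levels hf k

end Pool.Agent.Results.MP_f992e4_an.LowLevel
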